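import Pool.Agent.E8helper11.FZ.Stm

/-!
# Percolation with constant freezing: general facts
-/

set_option autoImplicit false

namespace Pool.Agent.E8helper11.FZ

open Finset

variable {V : Type} [Fintype V] [DecidableEq V]

/-! ### General facts -/

theorem warm_empty_iff (s : State V) : warmClusters s = ∅ ↔ ∀ v, v ∈ s.frozen := by
  unfold warmClusters
  rw [image_eq_empty, filter_eq_empty_iff]
  simp

theorem mem_cluster_self (O : Finset (Sym2 V)) (v : V) : v ∈ cluster O v := by
  unfold cluster
  simp

theorem mem_canOpen (G : SimpleGraph V) (s : State V) (e : Sym2 V) :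
    e ∈ canOpen G s ↔ e ∈ G.edgeSet ∧ e ∉ s.openE ∧ ∀ v ∈ e, v ∉ s.frozen := by
  unfold canOpen
  simp only [mem_filter, mem_univ, true_and]

theorem denom_pos (G : SimpleGraph V) {α : ℝ} (hα : 0 < α) (s : State V)
    (h : warmClusters s ≠ ∅) :
    0 < ((canOpen G s).card : ℝ) + α * (warmClusters s).card := by
  have h1 : 0 < (warmClusters s).card := card_pos.2 (nonempty_iff_ne_empty.2 h)
  have h2 : (0 : ℝ) < (warmClusters s).card := by exact_mod_cast h1
  have h3 : (0 : ℝ) ≤ (canOpen G s).card := Nat.cast_nonneg _
  positivity

theorem expect_succ (G : SimpleGraph V) (α : ℝ) (n : ℕ) (s : State V)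
    (h : warmClusters s ≠ ∅) (f : Finset (Sym2 V) → ℝ) :
    expect G α (n + 1) s f = (∑ e ∈ canOpen G s, expect G α n ⟨insert e s.openE, s.frozen⟩ f +
        α * ∑ C ∈ warmClusters s, expect G α n ⟨s.openE, s.frozen ∪ C⟩ f) /
      ((canOpen G s).card + α * (warmClusters s).card) := by
  rw [expect, if_neg h]

open Classical in
/-- The number of jumps that may still happen. -/
noncomputable def rest (G : SimpleGraph V) (s : State V) : ℕ :=
  (univ.filter fun v => v ∉ s.frozen).card +
    (univ.filter fun e => e ∈ G.edgeSet ∧ e ∉ s.openE).card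

theorem rest_open (G : SimpleGraph V) (s : State V) (e : Sym2 V) (he : e ∈ canOpen G s) :
    rest G ⟨insert e s.openE, s.frozen⟩ < rest G s := by
  unfold rest
  simp only
  rw [mem_canOpen] at he
  apply Nat.add_lt_add_left
  apply card_lt_card
  rw [ssubset_iff_of_subset]
  · exact ⟨e, by simp [he.1, he.2.1], by simp⟩
  · intro x hx
    simp only [mem_filter, mem_univ, true_and, mem_insert, not_or] at hx ⊢
    exact ⟨hx.1, hx.2.2⟩

theorem rest_freeze (G : SimpleGraph V) (s : State V) (C : Finset V) (hC : C ∈ warmClusters s) :
    rest G ⟨s.openE, s.frozen ∪ C⟩ < rest G s := by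
  unfold rest
  simp only
  unfold warmClusters at hC
  rw [mem_image] at hC
  obtain ⟨v, hv, rfl⟩ := hC
  rw [mem_filter] at hv
  apply Nat.add_lt_add_right
  apply card_lt_card
  rw [ssubset_iff_of_subset]
  · exact ⟨v, by simp [hv.2], by simp [mem_cluster_self]⟩
  · intro x hx
    simp only [mem_filter, mem_univ, true_and, mem_union, not_or] at hx ⊢
    exact hx.1

/-- After `rest G s` jumps the chain started from `s` is absorbed: its law no longer changes. -/
theorem expect_stable (G : SimpleGraph V) (α : ℝ) (n : ℕ) :
    ∀ (s : State V), rest G s ≤ n → ∀ f, expect G α (n + 1) s f = expect G α n s f := by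
  induction n with
  | zero =>
    intro s hs f
    have h : warmClusters s = ∅ := by
      rw [warm_empty_iff]
      by_contra hc
      push Not at hc
      obtain ⟨v, hv⟩ := hc
      have : 0 < (univ.filter fun v => v ∉ s.frozen).card := card_pos.2 ⟨v, by simp [hv]⟩
      unfold rest at hs
      omega
    show expect G α (0 + 1) s f = f s.openE
    simp only [expect, h, if_true]
  | succ n ih =>
    intro s hs f
    by_cases h : warmClusters s = ∅
    · rw [expect, if_pos h, expect, if_pos h]
    · rw [expect_succ G α (n + 1) s h, expect_succ G α n s h]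
      congr 1
      congr 1
      · apply sum_congr rfl
        intro e he
        exact ih _ (by have := rest_open G s e he; omega) f
      · congr 1
        apply sum_congr rfl
        intro C hC
        exact ih _ (by have := rest_freeze G s C hC; omega) f

/-- The law after `n` jumps is the same for all `n ≥ |V| + |E|`. -/
theorem prob_final (G : SimpleGraph V) (α : ℝ) (n : ℕ) (hn : steps G ≤ n)
    (A : Set (Finset (Sym2 V))) : prob G α n ⟨∅, ∅⟩ A = mu G α A := by
  unfold mu prob
  induction n, hn using Nat.le_induction with
  | base => rfl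
  | succ n hn ih =>
    rw [expect_stable G α n ⟨∅, ∅⟩ _ _, ih]
    unfold rest
    unfold steps at hn
    refine le_trans (Nat.add_le_add (card_filter_le _ _) ?_) hn
    apply card_le_card
    intro e he
    simp only [mem_filter, mem_univ, true_and] at he ⊢
    exact he.1

theorem expect_mono (G : SimpleGraph V) {α : ℝ} (hα : 0 < α) (n : ℕ) :
    ∀ (s : State V) (f g : Finset (Sym2 V) → ℝ), (∀ ω, f ω ≤ g ω) →
      expect G α n s f ≤ expect G α n s g := by
  induction n with
  | zero => intro s f g h; exact h _
  | succ n ih =>
    intro s f g hfg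
    by_cases h : warmClusters s = ∅
    · rw [expect, expect, if_pos h, if_pos h]; exact hfg _
    · rw [expect_succ G α n s h, expect_succ G α n s h]
      have := denom_pos G hα s h
      gcongr
      · exact ih _ _ _ hfg
      · exact ih _ _ _ hfg

theorem expect_add (G : SimpleGraph V) (α : ℝ) (n : ℕ) :
    ∀ (s : State V) (f g : Finset (Sym2 V) → ℝ),
      expect G α n s (fun ω => f ω + g ω) = expect G α n s f + expect G α n s g := by
  induction n with
  | zero => intro s f g; rfl
  | succ n ih =>
    intro s f g
    by_cases h : warmClusters s = ∅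
    · rw [expect, expect, expect, if_pos h, if_pos h, if_pos h]
    · rw [expect_succ G α n s h, expect_succ G α n s h, expect_succ G α n s h]
      simp only [ih, sum_add_distrib]
      ring

theorem expect_const (G : SimpleGraph V) {α : ℝ} (hα : 0 < α) (n : ℕ) (c : ℝ) :
    ∀ (s : State V), expect G α n s (fun _ => c) = c := by
  induction n with
  | zero => intro s; rfl
  | succ n ih =>
    intro s
    by_cases h : warmClusters s = ∅
    · rw [expect, if_pos h]
    · rw [expect_succ G α n s h]
      have := denom_pos G hα s h
      simp only [ih, sum_const, nsmul_eq_mul]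
      rw [div_eq_iff this.ne']
      ring

theorem prob_nonneg (G : SimpleGraph V) {α : ℝ} (hα : 0 < α) (n : ℕ) (s : State V)
    (A : Set (Finset (Sym2 V))) : 0 ≤ prob G α n s A := by
  have h := expect_mono G hα n s (fun _ => 0) (A.indicator 1) (fun ω => by
    by_cases hω : ω ∈ A <;> simp [hω])
  rwa [expect_const G hα] at h


theorem rest_init_le (G : SimpleGraph V) : rest G ⟨∅, ∅⟩ ≤ steps G := by
  unfold rest steps
  refine Nat.add_le_add (card_filter_le _ _) ?_
  apply card_le_card
  intro e he
  simp only [mem_filter, mem_univ, true_and] at he ⊢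
  exact he.1

/-- The complementary event. -/
theorem mu_compl (G : SimpleGraph V) {α : ℝ} (hα : 0 < α) (A : Set (Finset (Sym2 V))) :
    mu G α Aᶜ = 1 - mu G α A := by
  unfold mu prob
  have h1 := expect_add G α (steps G) ⟨∅, ∅⟩ (A.indicator 1) (Aᶜ.indicator 1)
  have h2 : (fun ω => A.indicator (1 : Finset (Sym2 V) → ℝ) ω + Aᶜ.indicator (1 : Finset (Sym2 V) → ℝ) ω) =
      fun _ => (1 : ℝ) := by
    funext ω
    by_cases hω : ω ∈ A <;> simp [hω]
  rw [h2, expect_const G hα] at h1
  linarith

end Pool.Agent.E8helper11.FZ
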