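import Mathlib

/-!
# Percolation with constant freezing: definitions and statements of the pieces
-/

set_option autoImplicit false

namespace Pool.Agent.E8helper11.FZ

open Finset

/-- A state of PCF on a graph with vertex set `V`: the set of open edges and the set of frozen
vertices. All other edges are closed and all other vertices are warm. -/
structure State (V : Type) where
  /-- the open edges -/
  openE : Finset (Sym2 V)
  /-- the frozen vertices -/
  frozen : Finset V

section

variable {V : Type} [Fintype V] [DecidableEq V]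

open Classical in
/-- The cluster of `v` when `O` is the set of open edges: the vertices joined to `v` by a path of
open edges (regardless of which vertices are frozen). -/
noncomputable def cluster (O : Finset (Sym2 V)) (v : V) : Finset V :=
  univ.filter fun w => (SimpleGraph.fromEdgeSet (O : Set (Sym2 V))).Reachable v w

open Classical in
/-- The edges that can open: the closed edges of `G` with both endpoints warm. Each of them opens
at rate `1`. -/
noncomputable def canOpen (G : SimpleGraph V) (s : State V) : Finset (Sym2 V) :=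
  univ.filter fun e => e ∈ G.edgeSet ∧ e ∉ s.openE ∧ ∀ v ∈ e, v ∉ s.frozen

/-- The clusters of the warm vertices. Each of them freezes at rate `α`. -/
noncomputable def warmClusters (s : State V) : Finset (Finset V) :=
  (univ.filter fun v => v ∉ s.frozen).image (cluster s.openE)

/-- The expectation of `f (open edges)` after `n` jumps of the PCF chain on `G` at rate `α`, started
from the state `s`. From a state with at least one warm vertex, the chain jumps by opening an edge
`e` that can open (with probability `1 / R`) or by freezing a warm cluster `C` (with probability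
`α / R`), where `R = #(edges that can open) + α #(warm clusters)` is the total rate. A state without
warm vertices is absorbing. -/
noncomputable def expect (G : SimpleGraph V) (α : ℝ) :
    ℕ → State V → (Finset (Sym2 V) → ℝ) → ℝ
  | 0, s, f => f s.openE
  | n + 1, s, f =>
    if warmClusters s = ∅ then f s.openE
    else (∑ e ∈ canOpen G s, expect G α n ⟨insert e s.openE, s.frozen⟩ f +
        α * ∑ C ∈ warmClusters s, expect G α n ⟨s.openE, s.frozen ∪ C⟩ f) /
      ((canOpen G s).card + α * (warmClusters s).card)

/-- The probability that the set of open edges is in `A` after `n` jumps of the chain from `s`. -/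
noncomputable def prob (G : SimpleGraph V) (α : ℝ) (n : ℕ) (s : State V)
    (A : Set (Finset (Sym2 V))) : ℝ :=
  expect G α n s (A.indicator 1)

open Classical in
/-- The number `|V| + |E|`: after that many jumps the chain started from any state is absorbed. -/
noncomputable def steps (G : SimpleGraph V) : ℕ :=
  Fintype.card V + (univ.filter fun e => e ∈ G.edgeSet).card

/-- The law `μ_{G,α}` of the final set of open edges of PCF on `G` at rate `α`, started with all
vertices warm and all edges closed. -/
noncomputable def mu (G : SimpleGraph V) (α : ℝ) (A : Set (Finset (Sym2 V))) : ℝ :=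
  prob G α (steps G) ⟨∅, ∅⟩ A

/-- An event is increasing if it is closed under opening more edges. -/
def Increasing (A : Set (Finset (Sym2 V))) : Prop :=
  ∀ ω ω' : Finset (Sym2 V), ω ∈ A → ω ⊆ ω' → ω' ∈ A

end

/-! ### The chain of cliques -/

/-- The vertices: the pairs `(i, j)`, `i ≤ 2 T`, `j < m + 1`, and two more vertices. -/
abbrev W (T m : ℕ) : Type := (Fin (2 * T + 1) × Fin (m + 1)) ⊕ Bool

/-- Adjacency: the vertices of a row `i` form a clique together with the vertex `(i + 1, 0)`; the
vertex `inr false` is adjacent only to `(0, 0)` and `inr true` only to `(2 T, 0)`. -/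
def Ad {T m : ℕ} : W T m → W T m → Prop
  | .inl x, .inl y => (x.1 = y.1 ∧ x.2 ≠ y.2) ∨ ((y.1 : ℕ) = x.1 + 1 ∧ y.2 = 0) ∨
      ((x.1 : ℕ) = y.1 + 1 ∧ x.2 = 0)
  | .inl x, .inr b => x.2 = 0 ∧ (x.1 : ℕ) = if b then 2 * T else 0
  | .inr b, .inl x => x.2 = 0 ∧ (x.1 : ℕ) = if b then 2 * T else 0
  | .inr _, .inr _ => False

/-- The graph. -/
def Gr (T m : ℕ) : SimpleGraph (W T m) where
  Adj := Ad
  symm := by
    constructor
    rintro (x | b) (y | c) h
    · rcases h with h | h | h
      · exact Or.inl ⟨h.1.symm, h.2.symm⟩
      · exact Or.inr (Or.inr h)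
      · exact Or.inr (Or.inl h)
    · exact h
    · exact h
    · exact h
  loopless := by
    constructor
    rintro (x | b) h
    · rcases h with h | h | h
      · exact h.2 rfl
      · omega
      · omega
    · exact h

/-- The hub of the row `i`. -/
def hub (T m : ℕ) (i : Fin (2 * T + 1)) : W T m := .inl (i, 0)

/-- The first pendant edge. -/
def e1 (T m : ℕ) : Sym2 (W T m) := s(hub T m 0, .inr false)

/-- The second pendant edge. -/
def e2 (T m : ℕ) : Sym2 (W T m) := s(hub T m (Fin.last (2 * T)), .inr true)

/-- Both pendant edges are closed. -/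
def Dn (T m : ℕ) : Set (Finset (Sym2 (W T m))) := {ω | e1 T m ∉ ω ∧ e2 T m ∉ ω}

/-- The upper bound: either no hub of an odd row freezes alone, or the two pendant edges are closed
independently. -/
def S_UP : Prop :=
  ∀ (T m : ℕ), 1 ≤ T → ∀ α : ℝ, 0 < α →
    mu (Gr T m) α (Dn T m) ≤ (1 + α / (2 * m + 2)) ^ (-(T : ℤ)) + (2 * α / (1 + 2 * α)) ^ 2

open Classical in
/-- Every union of clusters has many edges to its complement. -/
def S_BD : Prop :=
  ∀ (T m : ℕ) (X : Finset (Fin (2 * T + 1) × Fin (m + 1))), X.Nonempty → X ≠ univ →
    m ≤ ((X ×ˢ Xᶜ).filter fun p : (Fin (2 * T + 1) × Fin (m + 1)) × (Fin (2 * T + 1) × Fin (m + 1)) =>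
      (Gr T m).Adj (.inl p.1) (.inl p.2)).card

/-- The lower bound: all the clusters of the chain merge before anything else happens, and then the
cluster of the chain freezes first. -/
def S_LO : Prop :=
  ∀ (T m : ℕ), 1 ≤ T → 1 ≤ m → ∀ α : ℝ, 0 < α →
    α / (2 + 3 * α) * ∏ r ∈ Icc 2 ((2 * T + 1) * (m + 1)),
      (1 + 2 * (2 + α * ((r : ℕ) + 2)) / ((r : ℕ) * m))⁻¹ ≤ mu (Gr T m) α (Dn T m)

/-- The numbers. -/
def S_NUM : Prop :=
  ∃ (T m : ℕ) (α β : ℝ), 1 ≤ T ∧ 1 ≤ m ∧ 0 < α ∧ α < β ∧
    (1 + β / (2 * m + 2)) ^ (-(T : ℤ)) + (2 * β / (1 + 2 * β)) ^ 2 <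
      α / (2 + 3 * α) * ∏ r ∈ Icc 2 ((2 * T + 1) * (m + 1)),
        (1 + 2 * (2 + α * ((r : ℕ) + 2)) / ((r : ℕ) * m))⁻¹

end Pool.Agent.E8helper11.FZ
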